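import Pool.Agent.Y412.AL.Girth

/-!
# Dense graphs of large girth: groups of automorphisms which almost satisfy a law

`G` is a graph on `n` vertices with `e` edges and without cycles of length at most `2 k`; a group
`A` acts on the vertices by automorphisms of `G`, with `t` orbits. The action need not be free or
faithful.

(1) Let a nontrivial word `u` of length `l` in `r` letters take at most `s` values on a subgroup `B`
of finite index. Then `⌊e / n⌋ ^ R ≤ 2 (2 (2 r + 1) (2 r + 2)²) ^ size R * |A : B| * s! * t` for all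
`R` with `(2 l + 2) R ≤ k`. For `B = A` and `s = 1` this is the case of a law.

(2) Let `A` be finite and suppose that conjugation can be guessed in `A`: for at least `ε |A|²` of
the pairs `(x, y)` the conjugate `y x y⁻¹` is in a list `F x` of at most `s` elements. This holds if
at least `ε |A|²` of the pairs commute, or have their commutator in a set of `s` elements, or if an
automorphism of `A` (for instance the identity) inverts at least a proportion `√ε` of the elements.
Then `⌊e / n⌋ ^ R ≤ 36 ^ size R * K * t` for all `R` with `6 R ≤ k`, where `K` only depends on `ε`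
and `s`.

So if `e ≥ c n ^ (1 + 1 / k)`, as in the girth conjecture, there are at least `c' n ^ (R / k)`
orbits.
-/

set_option autoImplicit false

namespace Pool.Agent.Results.MP_97687e_co.AlmostLaws

/-- For at least `ε |A| ^ 2` of the pairs `(x, y)` the conjugate `y x y⁻¹` is in a list `F x` of at
most `s` elements. -/
def Guessable (ε : ℝ) (s : ℕ) (A : Type) [Group A] : Prop :=
  ∃ F : A → Finset A, (∀ x, (F x).card ≤ s) ∧
    ε * (Nat.card A : ℝ) ^ 2 ≤ Nat.card {p : A × A // p.2 * p.1 * p.2⁻¹ ∈ F p.1}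

/-- (0) Examples of groups in which conjugation can be guessed: many commuting pairs, many pairs with
a commutator in a small set, many elements inverted by an automorphism. (1) Groups with a subgroup
`B` of finite index on which a word `u` has at most `s` values. (2) Groups in which conjugation can
be guessed. `Nat.size R` is the number of binary digits of `R`. -/
theorem result :
    (∀ (ε : ℝ) (A : Type) [Group A] [Finite A], 0 < ε →
      (ε * (Nat.card A : ℝ) ^ 2 ≤ Nat.card {p : A × A // p.1 * p.2 = p.2 * p.1} →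
        Guessable ε 1 A) ∧
      (∀ (s : ℕ) (S : Finset A), S.card ≤ s →
        ε * (Nat.card A : ℝ) ^ 2 ≤ Nat.card {p : A × A // p.1 * p.2 * p.1⁻¹ * p.2⁻¹ ∈ S} →
        Guessable ε s A) ∧
      ∀ α : A ≃* A, ε * (Nat.card A : ℝ) ≤ Nat.card {x : A // α x = x⁻¹} →
        Guessable (ε ^ 2) 1 A) ∧
    (∀ (V : Type) [Finite V] [Nonempty V] (G : SimpleGraph V) (A : Type) [Group A]
      [MulAction A V] (k : ℕ), 1 ≤ k →
      (∀ (v : V) (w : G.Walk v v), w.IsCycle → 2 * k < w.length) →
      (∀ (a : A) (x y : V), G.Adj x y → G.Adj (a • x) (a • y)) →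
      ∀ (r : ℕ) (u : FreeGroup (Fin r)), u ≠ 1 → ∀ (B : Subgroup A) (s : ℕ), B.index ≠ 0 →
      (Set.range fun g : Fin r → B => FreeGroup.lift g u).encard ≤ s →
      ∀ R : ℕ, (2 * u.norm + 2) * R ≤ k →
        (G.edgeSet.ncard / Nat.card V) ^ R ≤
          2 * (2 * (2 * (r + 1) - 1) * (2 * (r + 1)) ^ 2) ^ Nat.size R *
            (B.index * s.factorial * Nat.card (MulAction.orbitRel.Quotient A V)) ∧
        ∀ c : ℝ, 0 < c →
          c * (Nat.card V : ℝ) ^ (1 + 1 / (k : ℝ)) ≤ (G.edgeSet.ncard : ℝ) →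
          (c / 2) ^ R * (Nat.card V : ℝ) ^ ((R : ℝ) / (k : ℝ)) ≤
            2 * (((2 * (2 * (r + 1) - 1) * (2 * (r + 1)) ^ 2) ^ Nat.size R : ℕ) : ℝ) *
              ((B.index * s.factorial * Nat.card (MulAction.orbitRel.Quotient A V) : ℕ) : ℝ)) ∧
    ∀ (ε : ℝ) (s : ℕ), 0 < ε → ∃ K : ℕ,
      ∀ (V : Type) [Finite V] [Nonempty V] (G : SimpleGraph V) (A : Type) [Group A] [Finite A]
      [MulAction A V] (k : ℕ), 1 ≤ k →
      (∀ (v : V) (w : G.Walk v v), w.IsCycle → 2 * k < w.length) →
      (∀ (a : A) (x y : V), G.Adj x y → G.Adj (a • x) (a • y)) → Guessable ε s A →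
      ∀ R : ℕ, 6 * R ≤ k →
        (G.edgeSet.ncard / Nat.card V) ^ R ≤
          36 ^ Nat.size R * (K * Nat.card (MulAction.orbitRel.Quotient A V)) ∧
        ∀ c : ℝ, 0 < c →
          c * (Nat.card V : ℝ) ^ (1 + 1 / (k : ℝ)) ≤ (G.edgeSet.ncard : ℝ) →
          (c / 2) ^ R * (Nat.card V : ℝ) ^ ((R : ℝ) / (k : ℝ)) ≤
            36 ^ Nat.size R *
              ((K * Nat.card (MulAction.orbitRel.Quotient A V) : ℕ) : ℝ) := by
  refine ⟨fun ε A _ _ hε => ⟨fun h => Pool.Agent.Y412.AL.near_of_comm h,
    fun s S hS h => Pool.Agent.Y412.AL.near_of_commutators S hS h,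
    fun α h => Pool.Agent.Y412.AL.near_of_inverted hε.le α h⟩, ?_, ?_⟩
  · intro V _ _ G A _ _ k hk hg haut r u hu B s hB hs R hR
    exact Pool.Agent.Y412.AL.edges_few hk hg haut u hu B s hB hs R hR
  · intro ε s hε
    obtain ⟨K, -, hK⟩ := Pool.Agent.Y412.AL.near_structure ε hε s
    refine ⟨2 * K, fun V _ _ G A _ _ _ k hk hg haut hA R hR => ?_⟩
    obtain ⟨h1, h2⟩ := Pool.Agent.Y412.AL.edges_near hK hk hg haut hA R hR
    have hKK : Pool.Agent.TH468.GL.KK 3 R = 36 ^ Nat.size R := by
      unfold Pool.Agent.TH468.GL.KK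
      norm_num
    rw [hKK] at h1 h2
    refine ⟨h1.trans (le_of_eq (by ring)), fun c hc he => (h2 c hc he).trans (le_of_eq ?_)⟩
    push_cast
    ring

end Pool.Agent.Results.MP_97687e_co.AlmostLaws
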