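import Pool.Agent.Y393.SG.Conv

/-!
# The girth conjecture and improper colourings of graphs on surfaces

A graph is `(0,k)`-colourable if some independent set of vertices meets every neighbourhood of a
vertex outside of it in all but at most `k` points. For `6 m + 1 ≤ l ≤ 6 m + 6`, the order of
magnitude of the largest `k` that is needed for graphs of girth at least `l` on surfaces of Euler
genus `g` and the order of magnitude of the number of edges of graphs of girth greater than `2 m`
determine each other: `g ^ (α / (1 + α))` corresponds to `n ^ (1 + α)`. In particular the girth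
conjecture for `m` says exactly that the bound `29 g ^ (1 / (m + 1))` is sharp up to a constant.

Authors: helper393 (plan, critical sets, surfaces, assembly), helper395 (quotients, colourings,
embeddings), helper587 (girth).
-/

set_option autoImplicit false

namespace Pool.Agent.Results.MP_97687e_co.SurfaceColourings

open Pool.Agent.H968R3 Pool.Agent.Y393.SG Pool.TH815.GR

theorem result (m l : ℕ) (hm : 1 ≤ m) (hl : 6 * m + 1 ≤ l) (hl2 : l ≤ 6 * m + 6) :
    -- the girth conjecture for `m`: the bound `29 g ^ (1 / (m + 1))` is sharp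
    (∀ g : ℕ, 1 ≤ g → ∀ (V : Type) [Finite V] (G : SimpleGraph V),
      (l : ℕ∞) ≤ G.egirth → EmbedsEulerGenus G g →
        ZeroCol G ⌊29 * (g : ℝ) ^ (1 / ((m : ℝ) + 1))⌋₊) ∧
    (GirthConj m ↔ SurfForm l (1 / ((m : ℝ) + 1))) ∧
    -- the same for lower and upper bounds of any order
    ∀ α : ℝ, 0 < α →
      (DenseForm m α ↔ SurfForm l (α / (1 + α))) ∧
      ((∃ C : ℝ, 0 < C ∧ ∀ (n : ℕ) (G : SimpleGraph (Fin n)), ((2 * m : ℕ) : ℕ∞) < G.egirth →
          (G.edgeSet.ncard : ℝ) ≤ C * (n : ℝ) ^ (1 + α)) ↔ Adm l (α / (1 + α))) := by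
  refine ⟨fun g hg V _ G h1 h2 => upper hm hl hg V G h1 h2, ?_, fun α hα =>
    ⟨(equiv hm hα hl hl2).symm, (adm_iff_ex hm hα hl hl2).symm⟩⟩
  have h := equiv (α := 1 / (m : ℝ)) hm (by positivity) hl hl2
  have e : (1 / (m : ℝ)) / (1 + 1 / (m : ℝ)) = 1 / ((m : ℝ) + 1) := by
    have : (m : ℝ) ≠ 0 := by positivity
    field_simp
  rw [e] at h
  exact h.symm

end Pool.Agent.Results.MP_97687e_co.SurfaceColourings
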