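import Pool.Agent.Y422.TG.Main

set_option autoImplicit false

/-!
# The girth problem for graphs of twin-width at most `w`

`largest m w n` is the largest number of edges of a graph with at most `n` vertices, of twin-width
at most `w` and of girth greater than `2 m`. (`Homog`, `Contract` and `TwinWidthLE` are defined in
`Pool.Agent.Y422.TW.Defs`.)  For every `m ≥ 2` it is `n (w + 1)`, up to absolute constants, as long
as `w + 1 ≤ n ^ (1 / (⌊3 m / 2⌋ - 1))`; for `m = 2` and `m = 3` it is `n min (w + 1, n ^ (1 / m))`
for all `w`. The girth conjecture for `m` is the remaining case `w ≥ n ^ (1 / m)` in the sense that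
`largest m w n = γ (n, 2 m)` for `w ≥ n`, and graphs with `c n ^ (1 + 1 / m)` edges and girth greater
than `2 m` have twin-width at least `(c / 6) n ^ (1 / m) - 1`.

Upper bound: in every set `U` of vertices take the first moment at which a part of the contraction
sequence meets `U` in two vertices. Lower bound: the bipartite graph of the cosets of the two groups
`(1, α; 0, 1)` and `(1, 0; β t, 1)` in the group which they generate in `SL_2(F_p[t])`, modulo a high
power of `t` (a quotient which keeps `⌊3 m / 2⌋ - 1` coordinates). Its points and lines have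
coordinates in `Z / p` such that the difference of the `j`-th coordinates of a point and an
incident line is a function of the previous coordinates of both; so, starting with the last
coordinate, one can contract, for all values of the previous coordinates simultaneously, intervals
of values of length 1, 2, 4, 8, ..., and the twin-width is at most six times the degree `p`. A
closed path with `2 l ≤ 2 m` edges would give two products of `l` alternating generators with the
same coordinates; but they begin with different generators and their leading terms in the first row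
differ.
-/

namespace Pool.Agent.Results.MP_97687e_co.TwinWidthGirth

open Pool.Agent.Y422.TW

/-- The largest number of edges of a graph with at most `n` vertices, twin-width at most `w` and
girth greater than `2 m`. -/
noncomputable def largest (m w n : ℕ) : ℕ :=
  sSup {e : ℕ | ∃ (V : Type) (_ : Fintype V) (G : SimpleGraph V), Fintype.card V ≤ n ∧
    TwinWidthLE G w ∧ ((2 * m : ℕ) : ℕ∞) < G.egirth ∧ Nat.card G.edgeSet = e}

/-- **Main result.** For all `m ≥ 2`, `n ≥ 2` and all `w`,
`n min (w + 1, n ^ (1 / (⌊3 m / 2⌋ - 1))) / 48 ≤ largest m w n ≤ 6 n min (w + 1, n ^ (1 / m))`. -/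
theorem result : ∀ m : ℕ, 2 ≤ m → ∀ n w : ℕ, 2 ≤ n →
    1 / 48 * ((n : ℝ) * min ((w : ℝ) + 1) ((n : ℝ) ^ (1 / ((3 * m / 2 - 1 : ℕ) : ℝ)))) ≤
      largest m w n ∧
    (largest m w n : ℝ) ≤ 6 * ((n : ℝ) * min ((w : ℝ) + 1) ((n : ℝ) ^ (1 / (m : ℝ)))) := by
  intro m hm n w hn
  obtain ⟨V, hV, G, h1, h2, h3, h4⟩ := Pool.Agent.Y422.TG.lower_girth m hm n w hn
  have hmem : Nat.card G.edgeSet ∈ {e : ℕ | ∃ (V : Type) (_ : Fintype V) (G : SimpleGraph V),
      Fintype.card V ≤ n ∧ TwinWidthLE G w ∧ ((2 * m : ℕ) : ℕ∞) < G.egirth ∧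
      Nat.card G.edgeSet = e} := ⟨V, hV, G, h1, h2, h3, rfl⟩
  have hbdd : BddAbove {e : ℕ | ∃ (V : Type) (_ : Fintype V) (G : SimpleGraph V),
      Fintype.card V ≤ n ∧ TwinWidthLE G w ∧ ((2 * m : ℕ) : ℕ∞) < G.egirth ∧
      Nat.card G.edgeSet = e} := by
    obtain ⟨B, hB⟩ := exists_nat_ge
      (6 * ((n : ℝ) * min ((w : ℝ) + 1) ((n : ℝ) ^ (1 / (m : ℝ)))))
    refine ⟨B, ?_⟩
    rintro e ⟨V', _, G', g1, g2, g3, rfl⟩
    have := (Pool.Agent.Y422.TG.upper_girth G' m w n hm (by omega) g1 g2 g3).trans hB
    exact_mod_cast this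
  refine ⟨h4.trans (by exact_mod_cast le_csSup hbdd hmem), ?_⟩
  obtain ⟨V', _, G', g1, g2, g3, g4⟩ := Nat.sSup_mem ⟨_, hmem⟩ hbdd
  have := Pool.Agent.Y422.TG.upper_girth G' m w n hm (by omega) g1 g2 g3
  rw [g4] at this
  exact this

end Pool.Agent.Results.MP_97687e_co.TwinWidthGirth
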